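import Mathlib
import Pool.Agent.K1H22.DF.Main6
import Pool.Agent.K1H74.DF.A
import Pool.Agent.K1H99.DF.Scale
import Pool.Agent.K1H10.DF6.DE
import Pool.Agent.K1H11.DF6.L6
import Pool.Agent.K1H16.DF6.U6A
import Pool.Agent.K1H96.DF6.U6B
import Pool.Agent.K1H40.DF6.Disch

/-!
# The limit for diameter six

`fhat n d k` is the least number of edges of a graph on `n` vertices which has diameter at most `d`
after the deletion of any `k - 1` vertices, and `phihat n d k = fhat n d k - k n / 2`. For all
`k ≥ 1` the quotient `phihat n 6 k / n` converges to `1 / (k + 1)`.

Proof. Lower bound. Call the vertices of degree at least `D` hubs; let `Y` be the set of the other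
vertices with a hub neighbour, `Z` the set of the vertices that are left, and `Z₀` the set of the
vertices of `Z` with all their neighbours in `Z`. If `Z₀` is large, then every vertex which is no hub
has at least `k` neighbours outside `Z₀` (otherwise it is at distance at least four from the hubs
after the deletion of `k - 1` vertices, and the vertices of `Z₀` are at distance at least three).
Let `x ∈ Z` have a single neighbour `p ∈ Y`, where `p` has degree `k` and a single hub neighbour `h`.
After the deletion of all neighbours of `p` but `x` the distance of `p` from the hubs is at least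
four, and a second such vertex at the same hub `h` is at distance at least three. So at every hub
there are boundedly many such `x`, and for a suitable choice of `D` they are few altogether. Now
every vertex `v` gets the charge `deg v - k` plus the number of its hub neighbours, `Y` gives to `Z`
and `Z \ Z₀` to `Z₀`, and almost all vertices have at least `2 / (k + 1)` in the end.

Upper bound. There are `k` mutually adjacent hubs `0, …, k - 1`. A component has `k` rows, cliques
with vertices labelled `0, …, k - 1`, and a last row with the same labels and without inner edges;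
the vertex of label `a` in the last row is joined to the hub `a` and to the vertices of label `a` in
the rows other than `a`, and the vertex of label `a` in the row `a` is joined to the hub `a`.
-/

set_option autoImplicit false

namespace Pool.Agent.Results.MP_1438b7_co.DiameterSix

open Filter Topology

/-- After the deletion of any `k - 1` vertices the diameter of `G` is at most `d`. (`ediam` is
Mathlib's diameter with values in `ℕ∞`; it is `⊤` for a disconnected graph.) -/
def Tolerant (d k : ℕ) {n : ℕ} (G : SimpleGraph (Fin n)) : Prop :=
  ∀ S : Finset (Fin n), S.card = k - 1 → (G.induce {x | x ∉ S}).ediam ≤ (d : ℕ∞)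

/-- The least number of edges of a graph on `n` vertices with diameter at most `d` after the
deletion of any `k - 1` vertices. -/
noncomputable def fhat (n d k : ℕ) : ℕ :=
  sInf {m : ℕ | ∃ G : SimpleGraph (Fin n), Tolerant d k G ∧ G.edgeSet.ncard = m}

/-- The excess over `k n / 2`. -/
noncomputable def phihat (n d k : ℕ) : ℝ := (fhat n d k : ℝ) - (k : ℝ) * n / 2

/-- For all `k ≥ 1` the quotient `phihat n 6 k / n` tends to `1 / (k + 1)` as `n → ∞`. -/
theorem result (k : ℕ) (hk : 1 ≤ k) :
    Tendsto (fun n : ℕ => phihat n 6 k / n) atTop (𝓝 (1 / ((k : ℝ) + 1))) :=
  Pool.Agent.K1H22.DF.main6 Pool.Agent.K1H16.DF6.t_U6A Pool.Agent.K1H96.DF6.t_U6B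
    (Pool.Agent.K1H11.DF6.t_L6 Pool.Agent.K1H10.DF6.t_DEEP6 Pool.Agent.K1H10.DF6.t_EXC6
      Pool.Agent.K1H99.DF.t_SCALE Pool.Agent.K1H40.DF6.t_DISCH6 Pool.Agent.K1H74.DF.t_MIN) k hk
    (fun n G => Tolerant 6 k G) (fun n G => forall_congr' fun S => imp_congr_right fun _ =>
      Pool.Agent.K1H22.DF.ediam_iff G S 6)

end Pool.Agent.Results.MP_1438b7_co.DiameterSix
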